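import Pool.Agent.X111.DL.Pos

set_option autoImplicit false

/-!
MP_39df77_nt. Unconditional lower bounds for the moments, of every real order `2k ≥ 1`, of the derivatives of zeta and of their local
maxima next to the critical line. Let `δ(T) → 0`, `δ(T) log T → ∞`.

* `liminf (2δ)^(k² + 2k) (1/T) ∫_0^T |ζ'(1/2 + δ + it)|^(2k) dt ≥ a(k) E |ξ - k|^(2k)`, `ξ` standard complex Gaussian; for `k = 3` and `k = 4`
  this is `liminf (2δ)^15 (1/T) ∫ |ζ'|^6 ≥ 1626 a(3)` and `liminf (2δ)^24 (1/T) ∫ |ζ'|^8 ≥ 151064 a(4)`.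
* For every `m ≥ 0` and `H ≥ 0`, `liminf (2δ)^(k²) (1/T) ∫_0^T (max_{|a| ≤ H} |δ^m ζ^(m)(1/2 + δ + i (t + a δ))|)^(2k) dt ≥ a(k) D(k, m, H)`,
  where `D(k, m, H) = E max_{|a| ≤ H} |f^(m)(i a)|^(2k)` for an explicit random function `f`; and
  `D(k, m, H) ≥ (k (k+1) ... (k+m-1) / 2^m)^(2k) > 0`.
-/

open Filter Topology MeasureTheory

namespace Pool.Agent.Results.MP_39df77_nt.DerivativeLowerBounds

/-- The generalised divisor function at a prime power: `d_k(p^m) = Γ(k + m) / (Γ(k) m!)`. -/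
noncomputable def dk (k : ℝ) (m : ℕ) : ℝ := Real.Gamma (k + m) / (Real.Gamma k * (m.factorial : ℝ))

/-- The arithmetic factor `a(k) = ∏_p (1 - 1/p)^(k²) ∑_m d_k(p^m)² p^(-m)`. -/
noncomputable def ak (k : ℝ) : ℝ :=
  ∏' p : Nat.Primes, ((1 - 1 / (p : ℝ)) ^ (k ^ 2) * ∑' m : ℕ, dk k m ^ 2 / (p : ℝ) ^ m)

/-- The centred normal law of variance `1/2`. -/
noncomputable def ga : Measure ℝ := ProbabilityTheory.gaussianReal 0 (1 / 2)

/-- The law of a sequence of independent standard complex Gaussian variables, as pairs of real and imaginary parts. -/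
noncomputable def noise : Measure (ℕ → ℝ × ℝ) := Measure.infinitePi fun _ => ga.prod ga

/-- The limit field `f(z) = (1 + z/2)^(-k) exp(∑_{n ≥ 1} ξ_n w^n / √n)`, `w = z/(z+2)`, `ξ_{n+1} = ω_n`. -/
noncomputable def field (k : ℝ) (ω : ℕ → ℝ × ℝ) (z : ℂ) : ℂ :=
  (1 + z / 2) ^ (-(k : ℂ)) *
    Complex.exp (∑' n : ℕ, (((ω n).1 : ℂ) + (ω n).2 * Complex.I) * ((z / (z + 2)) ^ (n + 1) / (Real.sqrt (n + 1) : ℂ)))

/-- The local maximum of the `m`-th derivative of zeta: `max_{|a| ≤ H} |ζ^(m)(1/2 + δ + i (t + a δ))|`. -/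
noncomputable def locmax (m : ℕ) (H δ t : ℝ) : ℝ :=
  ⨆ a : Set.Icc (-H) H, ‖iteratedDeriv m riemannZeta (1 / 2 + δ + Complex.I * (t + (a : ℝ) * δ))‖

/-- The constant `D(k, m, H) = E max_{|a| ≤ H} |f^(m)(i a)|^(2k)`. -/
noncomputable def Dm (k : ℝ) (m : ℕ) (H : ℝ) : ℝ :=
  ∫ ω, (⨆ a : Set.Icc (-H) H, ‖iteratedDeriv m (field k ω) (Complex.I * (a : ℝ))‖) ^ (2 * k) ∂noise

/-- the coefficients -/
lemma dk_lc {k : ℝ} (hk : 0 < k) (m : ℕ) : dk k m = Pool.Agent.H306R2.lc k m := by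
  have hG : Real.Gamma k ≠ 0 := (Real.Gamma_pos_of_pos hk).ne'
  unfold dk
  induction m with
  | zero =>
    unfold Pool.Agent.H306R2.lc
    simp [hG]
  | succ m ih =>
    have h1 : Pool.Agent.H306R2.lc k (m + 1) = Pool.Agent.H306R2.lc k m * ((k + m) / ((m : ℝ) + 1)) := by
      unfold Pool.Agent.H306R2.lc
      rw [Finset.prod_range_succ]
    have hkm : k + (m : ℝ) ≠ 0 := by positivity
    have h2 : Real.Gamma (k + ((m + 1 : ℕ) : ℝ)) = (k + m) * Real.Gamma (k + m) := by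
      rw [← Real.Gamma_add_one hkm]
      congr 1
      push_cast
      ring
    have hf : (m.factorial : ℝ) ≠ 0 := by positivity
    rw [h1, ← ih, h2, Nat.factorial_succ]
    push_cast
    field_simp

/-- the arithmetic factor -/
lemma ak_aF {k : ℝ} (hk : 0 < k) : ak k = Pool.Agent.H306R2.aF k := by
  unfold ak Pool.Agent.H306R2.aF
  refine tprod_congr fun p => ?_
  simp_rw [dk_lc hk, one_div, inv_pow, div_eq_mul_inv]

/-- the field -/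
lemma field_fi (k : ℝ) (ω : ℕ → ℝ × ℝ) : field k ω = Pool.Agent.X111.FL.fi k ω := by
  funext z
  unfold field Pool.Agent.X111.FL.fi Pool.Agent.X111.FL.gf Pool.Agent.X111.JD.nn
  rfl

/-- the constants -/
lemma Dm_Sf (k : ℝ) (m : ℕ) (H : ℝ) : Dm k m H = ∫ ω, Pool.Agent.X111.DL.Sf k H m ω ^ (2 * k) ∂Pool.Agent.X111.FL.PG := by
  unfold Dm Pool.Agent.X111.DL.Sf
  simp_rw [field_fi]
  rfl

/-- the local maxima -/
lemma locmax_Sz {δ : ℝ} (hδ : 0 ≤ δ) (H : ℝ) (m : ℕ) (t : ℝ) : δ ^ m * locmax m H δ t = Pool.Agent.X111.DL.Sz δ H m t := by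
  unfold locmax Pool.Agent.X111.DL.Sz
  rw [Real.mul_iSup_of_nonneg (by positivity)]
  congr 1
  funext a
  rw [norm_mul, norm_pow, Complex.norm_real, Real.norm_of_nonneg hδ]
  congr 3
  push_cast
  ring

theorem result :
    (∀ k : ℝ, 1 / 2 ≤ k → 0 < ak k ∧
      ∀ δ : ℝ → ℝ, Tendsto δ atTop (𝓝 0) → Tendsto (fun T : ℝ => δ T * Real.log T) atTop atTop →
      ∀ ε : ℝ, 0 < ε → ∀ᶠ T : ℝ in atTop, ak k * (∫ p : ℝ × ℝ, ((p.1 - k) ^ 2 + p.2 ^ 2) ^ k ∂(ga.prod ga)) - ε ≤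
        (2 * δ T) ^ (k ^ 2 + 2 * k) * (1 / T) * ∫ t in Set.Icc 0 T, ‖deriv riemannZeta (1 / 2 + δ T + Complex.I * t)‖ ^ (2 * k)) ∧
    (∀ δ : ℝ → ℝ, Tendsto δ atTop (𝓝 0) → Tendsto (fun T : ℝ => δ T * Real.log T) atTop atTop →
      ∀ ε : ℝ, 0 < ε → ∀ᶠ T : ℝ in atTop,
        1626 * ak 3 - ε ≤ (2 * δ T) ^ 15 * (1 / T) * (∫ t in Set.Icc 0 T, ‖deriv riemannZeta (1 / 2 + δ T + Complex.I * t)‖ ^ 6) ∧
        151064 * ak 4 - ε ≤ (2 * δ T) ^ 24 * (1 / T) * ∫ t in Set.Icc 0 T, ‖deriv riemannZeta (1 / 2 + δ T + Complex.I * t)‖ ^ 8) ∧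
    (∀ k : ℝ, 1 / 2 ≤ k → ∀ δ : ℝ → ℝ, Tendsto δ atTop (𝓝 0) → Tendsto (fun T : ℝ => δ T * Real.log T) atTop atTop →
      ∀ (m : ℕ) (H : ℝ), 0 ≤ H → ∀ ε : ℝ, 0 < ε → ∀ᶠ T : ℝ in atTop, ak k * Dm k m H - ε ≤
        (2 * δ T) ^ (k ^ 2) * (1 / T) * ∫ t in Set.Icc 0 T, ((δ T) ^ m * locmax m H (δ T) t) ^ (2 * k)) ∧
    (∀ k : ℝ, 1 / 2 ≤ k → ∀ (m : ℕ) (H : ℝ), 0 ≤ H →
      0 < (∏ j ∈ Finset.range m, ((k + j) / 2)) ^ (2 * k) ∧ (∏ j ∈ Finset.range m, ((k + j) / 2)) ^ (2 * k) ≤ Dm k m H) := by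
  have hone : ∀ k : ℝ, 1 / 2 ≤ k → ∀ δ : ℝ → ℝ, Tendsto δ atTop (𝓝 0) → Tendsto (fun T : ℝ => δ T * Real.log T) atTop atTop →
      ∀ ε : ℝ, 0 < ε → ∀ᶠ T : ℝ in atTop, ak k * (∫ p : ℝ × ℝ, ((p.1 - k) ^ 2 + p.2 ^ 2) ^ k ∂(ga.prod ga)) - ε ≤
        (2 * δ T) ^ (k ^ 2 + 2 * k) * (1 / T) * ∫ t in Set.Icc 0 T, ‖deriv riemannZeta (1 / 2 + δ T + Complex.I * t)‖ ^ (2 * k) := by
    intro k hk δ hδ hδL ε hε
    have h1 := Pool.Agent.X111.DL.low_one hk hδ hδL hε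
    rw [ak_aF (by linarith)]
    filter_upwards [h1] with T hT
    rw [mul_one_div]
    simp_rw [mul_comm Complex.I]
    exact hT
  refine ⟨fun k hk => ⟨?_, fun δ hδ hδL ε hε => hone k hk δ hδ hδL ε hε⟩, fun δ hδ hδL ε hε => ?_, fun k hk δ hδ hδL m H hH ε hε => ?_,
    fun k hk m H hH => ⟨?_, ?_⟩⟩
  · rw [ak_aF (by linarith)]
    exact Pool.Agent.H306R2.aF_pos (by linarith)
  · have h3 := hone 3 (by norm_num) δ hδ hδL ε hε
    have h4 := hone 4 (by norm_num) δ hδ hδL ε hε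
    have e3 : ∫ p : ℝ × ℝ, ((p.1 - (3:ℝ)) ^ 2 + p.2 ^ 2) ^ (3:ℝ) ∂(ga.prod ga) = 1626 := by
      rw [← Pool.Agent.X111.DL.six]
      refine integral_congr_ae (Eventually.of_forall fun p => ?_)
      show ((p.1 - (3:ℝ)) ^ 2 + p.2 ^ 2) ^ (3:ℝ) = ((p.1 + (-3)) ^ 2 + p.2 ^ 2) ^ 3
      rw [← Real.rpow_natCast]
      norm_num
      rfl
    have e4 : ∫ p : ℝ × ℝ, ((p.1 - (4:ℝ)) ^ 2 + p.2 ^ 2) ^ (4:ℝ) ∂(ga.prod ga) = 151064 := by
      rw [← Pool.Agent.X111.DL.eight]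
      refine integral_congr_ae (Eventually.of_forall fun p => ?_)
      show ((p.1 - (4:ℝ)) ^ 2 + p.2 ^ 2) ^ (4:ℝ) = ((p.1 + (-4)) ^ 2 + p.2 ^ 2) ^ 4
      rw [← Real.rpow_natCast]
      norm_num
      rfl
    rw [e3] at h3
    rw [e4] at h4
    filter_upwards [h3, h4] with T g3 g4
    have f3 : (2 * δ T) ^ ((3:ℝ) ^ 2 + 2 * 3) = (2 * δ T) ^ 15 := by
      rw [← Real.rpow_natCast]
      norm_num
    have f4 : (2 * δ T) ^ ((4:ℝ) ^ 2 + 2 * 4) = (2 * δ T) ^ 24 := by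
      rw [← Real.rpow_natCast]
      norm_num
    have i3 : ∀ t : ℝ, ‖deriv riemannZeta (1 / 2 + δ T + Complex.I * t)‖ ^ (2 * (3:ℝ)) = ‖deriv riemannZeta (1 / 2 + δ T + Complex.I * t)‖ ^ 6 := by
      intro t
      rw [← Real.rpow_natCast]
      norm_num
    have i4 : ∀ t : ℝ, ‖deriv riemannZeta (1 / 2 + δ T + Complex.I * t)‖ ^ (2 * (4:ℝ)) = ‖deriv riemannZeta (1 / 2 + δ T + Complex.I * t)‖ ^ 8 := by
      intro t
      rw [← Real.rpow_natCast]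
      norm_num
    rw [f3] at g3
    rw [f4] at g4
    simp_rw [i3] at g3
    simp_rw [i4] at g4
    constructor
    · rw [mul_comm (1626 : ℝ)]
      exact g3
    · rw [mul_comm (151064 : ℝ)]
      exact g4
  · rw [ak_aF (by linarith), Dm_Sf]
    filter_upwards [Pool.Agent.X111.DL.low_max hk hδ hδL hH m hε, Pool.Agent.Y753.SHR.pos_path hδL] with T hT hd
    rw [mul_one_div]
    simp_rw [locmax_Sz hd.le]
    exact hT
  · have hp : 0 < ∏ j ∈ Finset.range m, ((k + j) / 2) := Finset.prod_pos fun j _ => by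
      have : (0:ℝ) ≤ j := Nat.cast_nonneg j
      linarith
    positivity
  · rw [Dm_Sf]
    have hne : Nonempty (Set.Icc (-H) H) := ⟨⟨0, by constructor <;> linarith⟩⟩
    obtain ⟨q, hq⟩ := TopologicalSpace.exists_dense_seq (Set.Icc (-H) H)
    have hk0 : 0 < k := by linarith
    obtain ⟨hi, -⟩ := Pool.Agent.X111.DL.Sf_lim hk0 hH m hq
    refine (Pool.Agent.X111.DL.Gf_pos hk m).trans ?_
    refine integral_mono_ae ?_ hi ?_
    · refine ((Pool.Agent.X111.DL.Gf_lim hk0 (fun _ : Fin 1 => (0:ℝ)) m).1).congr (Eventually.of_forall fun ω => ?_)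
      show ‖Pool.Agent.X111.DL.Gf k ω (fun _ : Fin 1 => (0:ℝ)) m 0‖ ^ (2 * k) = _
      congr 1
      unfold Pool.Agent.X111.DL.Gf
      rw [pi_norm_const]
      simp
    · filter_upwards [Pool.Agent.X111.FL.Gd_ae] with ω hω
      refine Real.rpow_le_rpow (norm_nonneg _) ?_ (by positivity)
      obtain ⟨r, hr0, hr1, hb⟩ := Pool.Agent.X111.DL.fi_jet_bd hk0 (H := H) hH
      have hbdd : BddAbove (Set.range fun a : Set.Icc (-H) H => ‖iteratedDeriv m (Pool.Agent.X111.FL.fi k ω) (Complex.I * ((a : ℝ) : ℂ))‖) := by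
        refine ⟨(m.factorial * 4 ^ m) * ((5 / 8) ^ (-k) * Real.exp (Pool.Agent.X111.FL.mj r ω)), ?_⟩
        rintro _ ⟨a, rfl⟩
        exact hb m ω hω a (abs_le.mpr a.2)
      have h1 := le_ciSup hbdd (⟨0, by constructor <;> linarith⟩ : Set.Icc (-H) H)
      simp only [Complex.ofReal_zero, mul_zero] at h1
      exact h1

end Pool.Agent.Results.MP_39df77_nt.DerivativeLowerBounds
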