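import Pool.Agent.X108.DS.Ap

/-!
# Lower bounds for the sixth and all even moments of zeta on arbitrary difference sets

Let `k ≥ 1` and `δ > 0`. For every set `S` of at least `T ^ (1/2 + δ)` real numbers in an interval of length `T`, with
mutual distances at least `1`, the mean value of `|ζ(1/2 + i (t - t'))| ^ (2k)` over the ordered pairs of distinct
elements `t`, `t'` of `S` is at least a positive constant times `(log T) ^ (k ^ 2)`, the conjectured order of the
`2k`-th moment. In particular the same lower bound holds for the mean value over the multiples `h Δ`, `h < J`, of every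
real number `Δ ≥ 1` which is not larger than about `J ^ (1 - 4 δ)`.

Idea of the proof. For every finite set `S` and every `n` the sum of `n ^ (-i (t - t'))` over all pairs of elements of
`S` is nonnegative, and the same is true for products of such factors. Hence, if `A` is the partial sum up to a small
power of `T` of the Dirichlet series of zeta, the sum of `Z A ^ (k-1) conj(A) ^ k` over the differences, where `Z` is the
partial sum up to `T`, is at least the sum of `|A| ^ (2k)`, which in turn is at least `|S| ^ 2` times the diagonal term.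
No information about the structure of `S` is needed. The number of solutions in the diagonal term is bounded from below
by means of pairwise coprime matrices.
-/

set_option autoImplicit false

namespace Pool.Agent.Results.MP_39df77_nt.MomentsOnDifferenceSets

open Complex

/-- Let `k ≥ 1` and `δ > 0`. There are `c > 0` and `T₀` such that (1) for every `T ≥ T₀` and every finite set `S` of real
numbers in an interval `[x, x + T]` whose elements have mutual distances `≥ 1` and with `|S| ≥ T ^ (1/2 + δ)`, the sum of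
`|ζ(1/2 + i(t - t'))| ^ (2k)` over the ordered pairs of distinct elements of `S` is at least `c |S| ^ 2 (log T) ^ (k ^ 2)`;
(2) for all natural numbers `J` and real `Δ ≥ 1` with `J Δ ≥ T₀` and `J ≥ (J Δ) ^ (1/2 + δ)`, the sum of
`|ζ(1/2 + i h Δ)| ^ (2k)` over `1 ≤ h ≤ J - 1` is at least `c J (log (J Δ)) ^ (k ^ 2)`. -/
theorem result (k : ℕ) (hk : 1 ≤ k) (δ : ℝ) (hδ : 0 < δ) : ∃ c : ℝ, 0 < c ∧ ∃ T₀ : ℝ,
    (∀ T : ℝ, T₀ ≤ T → ∀ (S : Finset ℝ) (x : ℝ), (∀ t ∈ S, x ≤ t ∧ t ≤ x + T) →
      (∀ t ∈ S, ∀ u ∈ S, t ≠ u → 1 ≤ |t - u|) → T ^ (1 / 2 + δ) ≤ S.card →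
      c * (S.card : ℝ) ^ 2 * Real.log T ^ (k ^ 2) ≤
        ∑ p ∈ S.offDiag, ‖riemannZeta (1 / 2 + I * ((p.1 - p.2 : ℝ) : ℂ))‖ ^ (2 * k)) ∧
    (∀ (J : ℕ) (Δ : ℝ), 1 ≤ Δ → T₀ ≤ J * Δ → ((J : ℝ) * Δ) ^ (1 / 2 + δ) ≤ J →
      c * J * Real.log (J * Δ) ^ (k ^ 2) ≤
        ∑ h ∈ Finset.Icc 1 (J - 1), ‖riemannZeta (1 / 2 + I * (((h : ℝ) * Δ : ℝ) : ℂ))‖ ^ (2 * k)) := by
  obtain ⟨c1, hc1, T1, hT1, h1⟩ := Pool.Agent.X108.DS.moments k hk hδ
  obtain ⟨c2, hc2, T2, hT2, h2⟩ := Pool.Agent.X108.DS.ap k hk hδ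
  refine ⟨min c1 c2, lt_min hc1 hc2, max T1 T2, ?_, ?_⟩
  · intro T hT S x hS1 hS2 hS3
    have hT1' := (le_max_left _ _).trans hT
    have h := h1 T hT1' S x ⟨hS2, hS1⟩ hS3
    have hl : 0 ≤ Real.log T := Real.log_nonneg (hT1.trans hT1')
    refine le_trans ?_ h
    have := min_le_left c1 c2
    gcongr
  · intro J Δ hΔ hJ hJ2
    have hJ1 := (le_max_right _ _).trans hJ
    have h := h2 J Δ hΔ hJ1 hJ2
    have hl : 0 ≤ Real.log (J * Δ) := Real.log_nonneg (hT2.trans hJ1)
    refine le_trans ?_ h
    have := min_le_right c1 c2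
    gcongr

end Pool.Agent.Results.MP_39df77_nt.MomentsOnDifferenceSets
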