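import Pool.Agent.X117.Four4

/-!
# The sixth moment of zeta over the four patterns of signs of Hardy's function and its derivative

Unconditionally, for all signs `σ₁, σ₂`: the set of the `t ∈ [T, 2 T]` with `σ₁ Z(t) > 0` and `σ₂ Z'(t) > 0`
contributes at least `T (log T) ^ (9 - ε)` to the sixth moment of `ζ` on the critical line, and at least
`T (log T) ^ (k ^ 2 - ε)` to the `2 k`-th moment, for every real `k`. More generally the integral over it of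
`|Z| ^ a |Z'| ^ b` is at least `T (log T) ^ ((a + b) ^ 2 / 4 + b - ε)` for all real `a, b`. The `t` with
`σ₁ Z(t) = (log T) ^ (κ - c + o(1))` and `σ₂ Z'(t) = (log T) ^ (κ + 1 + o(1))` have measure at least
`T (log T) ^ (-κ ^ 2 - c - ε)`, for every real `κ` and every `c ≥ 0`.
-/

open Filter Topology Complex MeasureTheory

namespace Pool.Agent.Results.MP_39df77_nt.SixthMomentBySignPatterns

/-- the phase `exp (i ϑ(t))`, with `ϑ(t) = arg Γ(1/4 + i t / 2) - (t / 2) log π` -/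
noncomputable def phase (t : ℝ) : ℂ :=
  Gamma (1 / 4 + I * t / 2) / ‖Gamma (1 / 4 + I * t / 2)‖ * cexp (-(I * (t / 2) * Real.log Real.pi))

/-- Hardy's function `Z(t) = exp (i ϑ(t)) ζ(1/2 + i t)`; the product is real, see `Z_eq` -/
noncomputable def Z (t : ℝ) : ℝ := (phase t * riemannZeta (1 / 2 + I * t)).re

theorem Z_eq (t : ℝ) : ((Z t : ℝ) : ℂ) = phase t * riemannZeta (1 / 2 + I * t) :=
  Pool.Agent.X117.HZ.Z_eq t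

/-- the `t ∈ [T, 2 T]` with `(log T) ^ (κ - c - ε) ≤ σ₁ Z(t) ≤ (log T) ^ (κ - c + ε)` and
`(log T) ^ (κ + 1 - ε) ≤ σ₂ Z'(t) ≤ (log T) ^ (κ + 1 + ε)` -/
def near (σ₁ σ₂ κ c ε T : ℝ) : Set ℝ :=
  {t : ℝ | T ≤ t ∧ t ≤ 2 * T ∧
    (Real.log T ^ (κ - c - ε) ≤ σ₁ * Z t ∧ σ₁ * Z t ≤ Real.log T ^ (κ - c + ε)) ∧
    Real.log T ^ (κ + 1 - ε) ≤ σ₂ * deriv Z t ∧ σ₂ * deriv Z t ≤ Real.log T ^ (κ + 1 + ε)}

/-- the `t ∈ [T, 2 T]` with `σ₁ Z(t) > 0` and `σ₂ Z'(t) > 0` -/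
def signs (σ₁ σ₂ T : ℝ) : Set ℝ := {t : ℝ | T ≤ t ∧ t ≤ 2 * T ∧ 0 < σ₁ * Z t ∧ 0 < σ₂ * deriv Z t}

/-- the integral of `|Z| ^ a |Z'| ^ b` over `signs σ₁ σ₂ T` -/
noncomputable def joint (σ₁ σ₂ a b T : ℝ) : ENNReal :=
  ∫⁻ t in signs σ₁ σ₂ T, ENNReal.ofReal (|Z t| ^ a * |deriv Z t| ^ b)

/-- the part of the `2 k`-th moment of zeta on the critical line over `signs σ₁ σ₂ T` -/
noncomputable def moment (σ₁ σ₂ k T : ℝ) : ENNReal :=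
  ∫⁻ t in signs σ₁ σ₂ T, ENNReal.ofReal (‖riemannZeta (1 / 2 + I * t)‖ ^ (2 * k))

/-- **values and moments for the four patterns of signs** -/
theorem result : ∀ σ₁ σ₂ : ℝ, (σ₁ = 1 ∨ σ₁ = -1) → (σ₂ = 1 ∨ σ₂ = -1) →
    (∀ κ c ε : ℝ, 0 ≤ c → 0 < ε → ∃ T₀ : ℝ, ∀ T : ℝ, T₀ ≤ T →
      T * Real.log T ^ (-κ ^ 2 - c - ε) ≤ volume.real (near σ₁ σ₂ κ c ε T)) ∧
    (∀ a b ε : ℝ, 0 < ε → ∃ T₀ : ℝ, ∀ T : ℝ, T₀ ≤ T →
      ENNReal.ofReal (T * Real.log T ^ ((a + b) ^ 2 / 4 + b - ε)) ≤ joint σ₁ σ₂ a b T) ∧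
    (∀ k ε : ℝ, 0 < ε → ∃ T₀ : ℝ, ∀ T : ℝ, T₀ ≤ T →
      ENNReal.ofReal (T * Real.log T ^ (k ^ 2 - ε)) ≤ moment σ₁ σ₂ k T) := by
  intro σ₁ σ₂ h1 h2
  have hj : ∀ a b ε : ℝ, 0 < ε → ∃ T₀ : ℝ, ∀ T : ℝ, T₀ ≤ T →
      ENNReal.ofReal (T * Real.log T ^ ((a + b) ^ 2 / 4 + b - ε)) ≤ joint σ₁ σ₂ a b T :=
    fun a b ε hε => Filter.eventually_atTop.mp (Pool.Agent.X117.Four.joint4_ge a b hε h1 h2)
  refine ⟨fun κ c ε hc hε => Filter.eventually_atTop.mp (Pool.Agent.X117.Four.near4_ge κ hc hε h1 h2),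
    hj, fun k ε hε => ?_⟩
  obtain ⟨T₀, hT⟩ := hj (2 * k) 0 ε hε
  refine ⟨T₀, fun T h => ?_⟩
  have h3 := hT T h
  have e1 : (2 * k + 0) ^ 2 / 4 + 0 - ε = k ^ 2 - ε := by ring
  rw [e1] at h3
  refine h3.trans (le_of_eq ?_)
  unfold joint moment
  refine lintegral_congr fun t => ?_
  rw [Real.rpow_zero, mul_one]
  congr 2
  exact Pool.Agent.X117.HZ.abs_Z t

end Pool.Agent.Results.MP_39df77_nt.SixthMomentBySignPatterns
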