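import Pool.Agent.X107.MU.MU15

/-!
# Real moments of zeta near the critical line and the values of zeta to the right of the line

Let `δ(T) → 0`, `δ(T) log T → ∞` and let `k > 0` be real. For a compact subset `K` of the strip
`1/2 < Re z < 1` and a set `A` of functions let `S_ε` be the set of the real `t` for which
`z ↦ ζ(z + it)` is uniformly on `K` at distance less than `ε` from a member of `A`. There is a function
`p_k` of `ε` (depending on `K`, `A` only, not on `δ`), monotone and with values in `[0, 1]`, such that for all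
`ε` at which it is continuous, that is for all but countably many, the moment over `S_ε`
`(2δ)^(k²) (1/T) ∫_{[0, T] ∩ S_ε} |ζ(1/2 + δ + it)|^(2k) dt` tends to `a(k) p_k(ε)`; here `k ≤ 2`, while for
`k ≥ 2 + 2c` this holds off sets `E(T)` of measure `o(δ^(4+4c) T)` on which `|ζ(1/2 + δ + it)| > δ^(-2-c)`.
For `A = {f}`, `p_k(ε)` is positive for all `ε > 0` if and only if `f` is a target of the universality
theorem; so for such `f`, and for all real `k > 0`, the moment over `S_ε` has the order of the whole moment.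
-/

set_option autoImplicit false

open Complex Filter Set MeasureTheory Topology

namespace Pool.Agent.Results.MP_39df77_nt.ValuesRightOfTheLine

/-- the value `d_k(p^j) = Γ(k + j) / (Γ(k) j!)` of the generalised divisor function at the powers of a prime -/
noncomputable def dp (k : ℝ) (j : ℕ) : ℝ := Real.Gamma (k + j) / (Real.Gamma k * (j.factorial : ℝ))

/-- the arithmetic factor `a(k)` of the moment of order `2 k` -/
noncomputable def ak (k : ℝ) : ℝ :=
  ∏' p : Nat.Primes, ((1 - 1 / (p : ℝ)) ^ (k ^ 2) * ∑' j : ℕ, dp k j ^ 2 / (p : ℝ) ^ j)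

/-- the real `t` for which `z ↦ ζ(z + it)` is uniformly on `K` at distance less than `ε` from a
member of `A` -/
def S (ε : ℝ) (K : Set ℂ) (A : Set (ℂ → ℂ)) : Set ℝ :=
  {t : ℝ | ∃ f ∈ A, ∃ η < ε, ∀ z ∈ K, ‖riemannZeta (z + t * I) - f z‖ ≤ η}

/-- the hull of `K`: the union of `K` and of the bounded components of its complement -/
def hull (K : Set ℂ) : Set ℂ :=
  K ∪ {z | z ∉ K ∧ Bornology.IsBounded (connectedComponentIn Kᶜ z)}

/-- `g` is continuous on `L`, holomorphic in the interior of `L`, and on each component of the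
interior of `L` either free of zeros or identically zero. -/
structure Good (L : Set ℂ) (g : ℂ → ℂ) : Prop where
  cont : ContinuousOn g L
  hol : DifferentiableOn ℂ g (interior L)
  comp : ∀ z ∈ interior L, (∀ w ∈ connectedComponentIn (interior L) z, g w ≠ 0) ∨
    (∀ w ∈ connectedComponentIn (interior L) z, g w = 0)

/-- `f` extends from `K` to a good function on the hull of `K` -/
def IsTarget (K : Set ℂ) (f : ℂ → ℂ) : Prop := ∃ g : ℂ → ℂ, (∀ z ∈ K, g z = f z) ∧ Good (hull K) g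

/-- the set `D(T)` of the integration: `[0, T]` without `E(T)`, for `k ≤ 2` or `k ≥ 2 + 2c`, or the whole of `[0, T]`
for `k ≤ 2` -/
def Admissible (E : ℝ → Set ℝ) (c k : ℝ) (D : ℝ → Set ℝ) : Prop :=
  ((k ≤ 2 ∨ 2 + 2 * c ≤ k) ∧ ∀ T, D T = Icc 0 T \ E T) ∨ (k ≤ 2 ∧ ∀ T, D T = Icc 0 T)

/-- the normalised moment of order `2 k` over the part in `P` of `D(T)`:
`(2δ)^(k²) (1/T) ∫_{D(T) ∩ P} |ζ(1/2 + δ + it)|^(2k) dt` -/
noncomputable def M (k : ℝ) (δ : ℝ → ℝ) (D : ℝ → Set ℝ) (P : Set ℝ) (T : ℝ) : ℝ :=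
  (2 * δ T) ^ (k ^ 2) / T * ∫ t in D T ∩ P, ‖riemannZeta (1 / 2 + δ T + t * I)‖ ^ (2 * k)

lemma dp_eq {k : ℝ} (hk : 0 < k) (m : ℕ) : dp k m = Pool.Agent.H306R2.lc k m := by
  unfold dp
  have hG : Real.Gamma k ≠ 0 := (Real.Gamma_pos_of_pos hk).ne'
  induction m with
  | zero =>
    unfold Pool.Agent.H306R2.lc
    simp [hG]
  | succ m ih =>
    have h1 : Pool.Agent.H306R2.lc k (m + 1) = Pool.Agent.H306R2.lc k m * ((k + m) / ((m : ℝ) + 1)) := by
      unfold Pool.Agent.H306R2.lc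
      rw [Finset.prod_range_succ]
    have hkm : k + (m : ℝ) ≠ 0 := by positivity
    have h2 : Real.Gamma (k + ((m + 1 : ℕ) : ℝ)) = (k + m) * Real.Gamma (k + m) := by
      rw [← Real.Gamma_add_one hkm]
      congr 1
      push_cast
      ring
    have hf : (m.factorial : ℝ) ≠ 0 := by positivity
    rw [h1, ← ih, h2, Nat.factorial_succ]
    push_cast
    field_simp

lemma ak_eq {k : ℝ} (hk : 0 < k) : ak k = Pool.Agent.H306R2.aF k := by
  unfold ak Pool.Agent.H306R2.aF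
  refine tprod_congr fun p => ?_
  simp_rw [dp_eq hk, one_div, inv_pow, div_eq_mul_inv]

lemma isTarget_iff (K : Set ℂ) (f : ℂ → ℂ) : IsTarget K f ↔ Pool.Agent.Y834.UT.Tgt K f := by
  constructor
  · rintro ⟨g, h1, h2, h3, h4⟩
    exact ⟨g, h1, h2, h3, h4⟩
  · rintro ⟨g, h1, h2, h3, h4⟩
    exact ⟨g, h1, h2, h3, h4⟩

lemma isTarget_of_connected {K : Set ℂ} (hK : IsCompact K) (hKc : IsConnected Kᶜ) (f : ℂ → ℂ) :
    IsTarget K f ↔ Good K f := by
  have hh : hull K = K := Pool.Agent.Y834.UT.hull_eq hK hKc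
  constructor
  · rintro ⟨g, h1, h2⟩
    rw [hh] at h2
    have h1' : ∀ z ∈ interior K, f z = g z := fun z hz => (h1 z (interior_subset hz)).symm
    refine ⟨h2.cont.congr fun z hz => (h1 z hz).symm, h2.hol.congr h1', fun z hz => ?_⟩
    have hsub : connectedComponentIn (interior K) z ⊆ interior K := connectedComponentIn_subset _ _
    rcases h2.comp z hz with h | h
    · exact Or.inl fun w hw => by
        rw [h1' w (hsub hw)]
        exact h w hw
    · exact Or.inr fun w hw => by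
        rw [h1' w (hsub hw)]
        exact h w hw
  · intro h
    refine ⟨f, fun _ _ => rfl, ?_⟩
    rw [hh]
    exact h

lemma exists_path : ∃ δ : ℝ → ℝ, Tendsto δ atTop (𝓝 0) ∧ Tendsto (fun T : ℝ => δ T * Real.log T) atTop atTop := by
  have h1 : Tendsto (fun T : ℝ => √(Real.log T)) atTop atTop :=
    Real.tendsto_sqrt_atTop.comp Real.tendsto_log_atTop
  refine ⟨fun T => (√(Real.log T))⁻¹, h1.inv_tendsto_atTop, ?_⟩
  refine h1.congr' ?_
  filter_upwards [eventually_gt_atTop (1 : ℝ)] with T hT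
  have hL := Real.log_pos hT
  have h2 : √(Real.log T) ≠ 0 := (Real.sqrt_pos.2 hL).ne'
  field_simp
  rw [Real.sq_sqrt hL.le]

lemma pos_of {δ : ℝ → ℝ} (hδL : Tendsto (fun T : ℝ => δ T * Real.log T) atTop atTop) : ∀ᶠ T in atTop, 0 < δ T := by
  filter_upwards [hδL.eventually_gt_atTop 0, eventually_gt_atTop 1] with T hT hT1
  exact (pos_iff_pos_of_mul_pos hT).mpr (Real.log_pos hT1)

/-- **The real moments near the critical line and the values of zeta to the right of the line.** -/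
theorem result :
    ∃ p : ℝ → Set ℂ → Set (ℂ → ℂ) → ℝ → ℝ,
      -- the moments over the sets of ordinates described by the values right of the line
      (∀ (δ : ℝ → ℝ), Tendsto δ atTop (𝓝 0) → Tendsto (fun T : ℝ => δ T * Real.log T) atTop atTop →
        ∀ (c : ℝ), 0 ≤ c → ∀ (R : Set ℝ), R.Countable → (∀ k ∈ R, 0 < k) →
        ∃ E : ℝ → Set ℝ, (∀ T, MeasurableSet (E T) ∧ ∀ t ∈ E T, 0 ≤ t ∧ t ≤ T ∧
            (δ T) ^ (-(2 + c)) < ‖riemannZeta (1 / 2 + δ T + t * I)‖) ∧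
          Tendsto (fun T => (volume (E T)).toReal / (T * (δ T) ^ (4 + 4 * c))) atTop (𝓝 0) ∧
          ∀ k ∈ R, ∀ D : ℝ → Set ℝ, Admissible E c k D →
            Tendsto (M k δ D univ) atTop (𝓝 (ak k)) ∧
            ∀ (K : Set ℂ) (A : Set (ℂ → ℂ)), IsCompact K → (∀ z ∈ K, 1 / 2 < z.re ∧ z.re < 1) →
              ∀ ε : ℝ, ContinuousAt (p k K A) ε → Tendsto (M k δ D (S ε K A)) atTop (𝓝 (ak k * p k K A ε))) ∧
      -- the limit functions
      (∀ k : ℝ, 0 < k → 0 < ak k ∧ ∀ (K : Set ℂ) (A : Set (ℂ → ℂ)), Monotone (p k K A) ∧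
        {ε | ¬ ContinuousAt (p k K A) ε}.Countable ∧ ∀ ε : ℝ, 0 ≤ p k K A ε ∧ p k K A ε ≤ 1) ∧
      -- universality: the moments over the sets which belong to a target
      (∀ k : ℝ, 0 < k → ∀ (K : Set ℂ) (f : ℂ → ℂ), IsCompact K → (∀ z ∈ K, 1 / 2 < z.re ∧ z.re < 1) →
        (IsTarget K f ↔ ∀ ε : ℝ, 0 < ε → 0 < p k K {f} ε)) ∧
      -- for all real orders, lower bounds for the integrals over the whole of `[0, T]`
      (∀ (δ : ℝ → ℝ), Tendsto δ atTop (𝓝 0) → Tendsto (fun T : ℝ => δ T * Real.log T) atTop atTop →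
        ∀ k : ℝ, 0 < k → ∀ (K : Set ℂ) (A : Set (ℂ → ℂ)), IsCompact K → (∀ z ∈ K, 1 / 2 < z.re ∧ z.re < 1) →
          ∀ ε : ℝ, ∀ m < ak k * p k K A ε, ∀ᶠ T in atTop, m < M k δ (fun T => Icc 0 T) (S ε K A) T) ∧
      -- if the complement of `K` is connected, the targets are the good functions on `K`
      (∀ (K : Set ℂ) (f : ℂ → ℂ), IsCompact K → IsConnected Kᶜ → (IsTarget K f ↔ Good K f)) := by
  obtain ⟨Z0, hZ0⟩ := Pool.Agent.X107.MU.sys_path Pool.Agent.Y901.SHR.done Pool.Agent.Y753.SHR.star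
  have haF : ∀ k : ℝ, 0 < k → 0 < Pool.Agent.H306R2.aF k := fun k hk => Pool.Agent.H306R2.aF_pos hk
  have hp : ∀ k : ℝ, 0 < k → ∀ (K : Set ℂ) (A : Set (ℂ → ℂ)) (ε : ℝ),
      ak k * (Pool.Agent.X107.MU.DL k (Z0 k) K A ε / Pool.Agent.H306R2.aF k) = Pool.Agent.X107.MU.DL k (Z0 k) K A ε := by
    intro k hk K A ε
    rw [ak_eq hk, mul_div_cancel₀ _ (haF k hk).ne']
  have hcat : ∀ k : ℝ, 0 < k → ∀ (K : Set ℂ) (A : Set (ℂ → ℂ)) (ε : ℝ),
      ContinuousAt (fun ε => Pool.Agent.X107.MU.DL k (Z0 k) K A ε / Pool.Agent.H306R2.aF k) ε →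
      ContinuousAt (Pool.Agent.X107.MU.DL k (Z0 k) K A) ε := by
    intro k hk K A ε h
    have h1 := h.const_mul (Pool.Agent.H306R2.aF k)
    refine h1.congr (Eventually.of_forall fun x => ?_)
    beta_reduce
    rw [mul_div_cancel₀ _ (haF k hk).ne']
  -- the systems of weights
  have hadm : ∀ {δ : ℝ → ℝ} {c : ℝ} {E : ℝ → Set ℝ} {k : ℝ},
      (((k ≤ 2 ∨ 4 + 4 * c ≤ 2 * k) → Pool.Agent.X107.MU.Sys k (Z0 k)
          (fun T t => ‖riemannZeta (1 / 2 + δ T + (t : ℂ) * I)‖ ^ (2 * k)) (fun T => Set.Icc 0 T \ E T)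
          (fun T => (2 * δ T) ^ (k ^ 2) / T)) ∧
        (k ≤ 2 → Pool.Agent.X107.MU.Sys k (Z0 k)
          (fun T t => ‖riemannZeta (1 / 2 + δ T + (t : ℂ) * I)‖ ^ (2 * k)) (fun T => Set.Icc 0 T)
          (fun T => (2 * δ T) ^ (k ^ 2) / T))) → ∀ D : ℝ → Set ℝ, Admissible E c k D →
      Pool.Agent.X107.MU.Sys k (Z0 k) (fun T t => ‖riemannZeta (1 / 2 + δ T + (t : ℂ) * I)‖ ^ (2 * k)) D
          (fun T => (2 * δ T) ^ (k ^ 2) / T) := by
    intro δ c E k h D hD
    rcases hD with ⟨h1, h2⟩ | ⟨h1, h2⟩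
    · have e : D = fun T => Icc 0 T \ E T := funext h2
      rw [e]
      refine h.1 ?_
      rcases h1 with h1 | h1
      · exact Or.inl h1
      · exact Or.inr (by linarith)
    · have e : D = fun T => Icc 0 T := funext h2
      rw [e]
      exact h.2 h1
  have hcase : ∀ k : ℝ, ∃ c : ℝ, 0 ≤ c ∧ (k ≤ 2 ∨ 2 + 2 * c ≤ k) := by
    intro k
    by_cases h : k ≤ 2
    · exact ⟨0, le_rfl, Or.inl h⟩
    · exact ⟨(k - 2) / 2, by linarith, Or.inr (by linarith)⟩
  refine ⟨fun k K A ε => Pool.Agent.X107.MU.DL k (Z0 k) K A ε / Pool.Agent.H306R2.aF k, ?_, ?_, ?_, ?_, ?_⟩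
  · intro δ hδ hδL c hc R hR hR0
    obtain ⟨E, hE, hvol, hsys⟩ := hZ0 δ hδ hδL c hc R hR hR0
    refine ⟨E, fun T => ⟨(hE T).1, fun t ht => ⟨((hE T).2.1 ht).1, ((hE T).2.1 ht).2, (hE T).2.2 t ht⟩⟩, hvol, ?_⟩
    intro k hk D hD
    have hs := hadm (hsys k hk) D hD
    refine ⟨?_, fun K A hK hKs ε hε => ?_⟩
    · have h1 := Pool.Agent.X107.MU.mass hs
      rw [Pool.Agent.X107.MU.L1_eq, ← ak_eq (hR0 k hk)] at h1
      refine h1.congr fun T => ?_
      unfold M
      rw [inter_univ]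
    · simp only
      rw [hp k (hR0 k hk)]
      exact Pool.Agent.X107.MU.DL_law (hR0 k hk) (Z0 k) A hK hKs (hcat k (hR0 k hk) K A ε hε) hs
  · intro k hk
    refine ⟨by rw [ak_eq hk]; exact haF k hk, fun K A => ?_⟩
    have hmono : Monotone fun ε => Pool.Agent.X107.MU.DL k (Z0 k) K A ε / Pool.Agent.H306R2.aF k := fun x y hxy =>
      div_le_div_of_nonneg_right (Pool.Agent.X107.MU.DL_mono hk (Z0 k) K A hxy) (haF k hk).le
    refine ⟨hmono, hmono.countable_not_continuousAt, fun ε => ⟨div_nonneg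
      (Pool.Agent.X107.MU.DL_nonneg hk (Z0 k) K A ε) (haF k hk).le, ?_⟩⟩
    rw [div_le_one (haF k hk), ← Pool.Agent.X107.MU.L1_eq]
    exact Pool.Agent.X107.MU.DL_le hk (Z0 k) K A ε
  · intro k hk K f hK hKs
    rw [isTarget_iff]
    constructor
    · intro h ε hε
      exact div_pos (Pool.Agent.X107.MU.DL_pos hk (Z0 k) hK hKs h hε) (haF k hk)
    · intro h
      obtain ⟨δ, hδ, hδL⟩ := exists_path
      obtain ⟨c, hc, hck⟩ := hcase k
      obtain ⟨E, hE, hvol, hsys⟩ := hZ0 δ hδ hδL c hc {k} (countable_singleton k) (fun r hr => by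
        rw [mem_singleton_iff] at hr
        rw [hr]
        exact hk)
      have hs := hadm (hsys k (mem_singleton k)) (fun T => Icc 0 T \ E T) (Or.inl ⟨hck, fun _ => rfl⟩)
      refine Pool.Agent.X107.MU.tgt_of_DL hk (Z0 k) hK hKs hs fun ε hε => ?_
      have h1 := h ε hε
      rwa [div_pos_iff_of_pos_right (haF k hk)] at h1
  · intro δ hδ hδL k hk K A hK hKs ε m hm
    rw [hp k hk] at hm
    obtain ⟨c, hc, hck⟩ := hcase k
    obtain ⟨E, hE, hvol, hsys⟩ := hZ0 δ hδ hδL c hc {k} (countable_singleton k) (fun r hr => by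
      rw [mem_singleton_iff] at hr
      rw [hr]
      exact hk)
    have hs := hadm (hsys k (mem_singleton k)) (fun T => Icc 0 T \ E T) (Or.inl ⟨hck, fun _ => rfl⟩)
    obtain ⟨m', hm', hmm⟩ := exists_lt_of_lt_csSup ⟨0, Pool.Agent.X107.MU.LS_zero hk (Z0 k) K A ε⟩ hm
    filter_upwards [hm'.2 _ _ _ hs, pos_of hδL, hδ.eventually (gt_mem_nhds (show (0 : ℝ) < 1 / 2 by norm_num)),
      eventually_gt_atTop (0 : ℝ)] with T h1 h2 h3 h4
    refine hmm.trans_le (h1.trans ?_)
    unfold M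
    refine mul_le_mul_of_nonneg_left ?_ (by positivity)
    have hi : IntegrableOn (fun t : ℝ => ‖riemannZeta (1 / 2 + δ T + (t : ℂ) * I)‖ ^ (2 * k)) (Icc 0 T) := by
      have := Pool.Agent.Y753.SHR.ic h3 (0 : ℝ) (r := 2 * k) (by positivity) (T := T)
      unfold Pool.Agent.Y753.SHR.za at this
      simpa using this
    exact setIntegral_mono_set (hi.mono_set inter_subset_left) (Eventually.of_forall fun t => by positivity)
      (Eventually.of_forall fun t (ht : t ∈ (Icc 0 T \ E T) ∩ _) => ⟨ht.1.1, ht.2⟩)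
  · exact fun K f hK hKc => isTarget_of_connected hK hKc f

end Pool.Agent.Results.MP_39df77_nt.ValuesRightOfTheLine
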